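import Pool.Agent.MP_f6b137_pr.H74.Base

/-! Row IND: blocks of an orthonormal family are independent standard Gaussian vectors. -/

namespace Pool.Agent.MP_f6b137_pr.H96

open MeasureTheory ProbabilityTheory Pool.Agent.MP_f6b137_pr.H74
open scoped RealInnerProductSpace

theorem idx_lt {B m b i : ℕ} (hb : b < m) (hi : i < B) : b * B + i < m * B := by
  have := Nat.mul_le_mul_right B (Nat.succ_le_of_lt hb)
  rw [Nat.succ_mul] at this
  omega

theorem idx_inj {B b i c j : ℕ} (hi : i < B) (hj : j < B) (h : b * B + i = c * B + j) : b = c := by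
  have h1 := congrArg (· / B) h
  have hB : 0 < B := by omega
  simp only [mul_comm _ B, Nat.mul_add_div hB, Nat.div_eq_of_lt hi, Nat.div_eq_of_lt hj] at h1
  exact h1

theorem rowIND : RowIND := by
  intro D B m e he
  have hid : HasGaussianLaw id (gam D) := IsGaussian.hasGaussianLaw_id
  refine ⟨?_, fun b hb => ?_⟩
  · have hG : HasGaussianLaw
        (fun (W : ES D) (b : Fin m) (i : Fin B) => ⟪e (b * B + i), W⟫) (gam D) :=
      hid.map (ContinuousLinearMap.pi fun b : Fin m =>
        ContinuousLinearMap.pi fun i : Fin B => innerSL ℝ (e (b * B + i)))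
    refine HasGaussianLaw.iIndepFun_of_covariance_eval
      (X := fun (b : Fin m) (i : Fin B) (W : ES D) => ⟪e (b * B + i), W⟫) hG
      fun b c hbc i j => ?_
    rw [cov_inner, he _ (idx_lt b.2 i.2) _ (idx_lt c.2 j.2),
      if_neg fun h => hbc (Fin.ext (idx_inj i.2 j.2 h))]
  · have hG : HasGaussianLaw (fun (W : ES D) (i : Fin B) => ⟪e (b * B + i), W⟫) (gam D) :=
      hid.map (ContinuousLinearMap.pi fun i : Fin B => innerSL ℝ (e (b * B + i)))
    have hI := HasGaussianLaw.iIndepFun_of_covariance_eq_zero
      (X := fun (i : Fin B) (W : ES D) => ⟪e (b * B + i), W⟫) hG fun i j hij => by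
        rw [cov_inner, he _ (idx_lt hb i.2) _ (idx_lt hb j.2),
          if_neg fun h => hij (Fin.ext (by omega))]
    have h := (iIndepFun_iff_map_fun_eq_pi_map
      fun i : Fin B => (measurable_inner' (e (b * B + i))).aemeasurable).1 hI
    refine h.trans ?_
    congr 1
    funext i
    have h1 := he _ (idx_lt hb i.2) _ (idx_lt hb i.2)
    rw [if_pos rfl, real_inner_self_eq_norm_sq] at h1
    rw [map_inner, h1, Real.toNNReal_one]

end Pool.Agent.MP_f6b137_pr.H96
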